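import Pool.Agent.TH177.MP.Defs

/-!
# An object with an operator which is monodromy-pure, and one which is not
-/

open CategoryTheory Limits

universe u v

namespace Pool.Agent.TH177.MP

variable {C : Type u} [Category.{v} C] [Abelian C]

section Quotients

/-- The quotient of the subobjects given by two monomorphisms. -/
lemma quot_iso {A X Y : C} (x : X ⟶ A) (y : Y ⟶ A) [Mono x] [Mono y] (f : X ⟶ Y)
    (hf : f ≫ y = x) (h : Subobject.mk x ≤ Subobject.mk y) :
    Nonempty (cokernel (Subobject.ofLE (Subobject.mk x) (Subobject.mk y) h) ≅ cokernel f) := by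
  refine ⟨cokernel.mapIso _ _ (Subobject.underlyingIso x) (Subobject.underlyingIso y) ?_⟩
  rw [← cancel_mono y, Category.assoc, Category.assoc, hf]
  simp

lemma pureQuotient_mk {t : Weights C} (ht : t.IsWeightTheory) {w : ℤ} {A X Y : C} (x : X ⟶ A)
    (y : Y ⟶ A) [Mono x] [Mono y] (f : X ⟶ Y) (hf : f ≫ y = x) (hp : t.Pure w (cokernel f)) :
    t.PureQuotient w (Subobject.mk x) (Subobject.mk y) := by
  intro h
  obtain ⟨e⟩ := quot_iso x y f hf h
  exact ht.iso e.symm hp

end Quotients

section Powers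

variable {t : Weights C} {A : C} (N : A ⟶ t.T.functor.obj A)

omit [Abelian C] in
lemma pow_one' : t.pow N 1 = N := by
  change 𝟙 A ≫ N = N
  rw [Category.id_comp]

omit [Abelian C] in
lemma pow_succ' (n : ℕ) : t.pow N (n + 1) = t.pow N n ≫ (t.tw n).functor.map N := rfl

omit [Abelian C] in
lemma pow_two' : t.pow N 2 = N ≫ t.T.functor.map N := by
  rw [pow_succ', pow_one']
  rfl

lemma pow_eq_zero (h : t.pow N 2 = 0) (n : ℕ) (hn : 2 ≤ n) : t.pow N n = 0 := by
  induction n, hn using Nat.le_induction with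
  | base => exact h
  | succ n hn ih => rw [pow_succ', ih]; exact zero_comp

lemma pow_eq_zero_of_zero (n : ℕ) (hn : 1 ≤ n) (hN : N = 0) : t.pow N n = 0 := by
  obtain ⟨m, rfl⟩ : ∃ m, n = m + 1 := ⟨n - 1, by omega⟩
  rw [pow_succ', hN]
  have h1 : (t.tw m).functor.map (0 : A ⟶ t.T.functor.obj A) = 0 := Functor.map_zero _ _ _
  rw [h1]
  exact comp_zero

end Powers

section Images

lemma le_preimageOf {A B : C} (f : A ⟶ B) (S : Subobject B) (R : Subobject A)
    (g : (R : C) ⟶ (S : C)) (h : g ≫ S.arrow = R.arrow ≫ f) : R ≤ preimageOf f S := by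
  have hp := Subobject.isPullback f S
  refine Subobject.le_of_comm (hp.lift g R.arrow h) ?_
  exact hp.lift_snd g R.arrow h

lemma preimageOf_arrow {A B : C} (f : A ⟶ B) (S : Subobject B) {R : Subobject A}
    (h : R ≤ preimageOf f S) : ∃ g : (R : C) ⟶ (S : C), g ≫ S.arrow = R.arrow ≫ f := by
  have hp := Subobject.isPullback f S
  have h' : R ≤ (Subobject.pullback f).obj S := h
  refine ⟨Subobject.ofLE R ((Subobject.pullback f).obj S) h' ≫ Subobject.pullbackπ f S, ?_⟩
  rw [Category.assoc, hp.w, ← Category.assoc, Subobject.ofLE_arrow]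

lemma bot_arrow' (A : C) : (⊥ : Subobject A).arrow = 0 := Subobject.bot_arrow

/-- A subobject whose arrow is killed by `f` and which is arbitrary otherwise. -/
lemma sub_bot (t : Weights C) (n : ℕ) (A : C) : t.sub n (⊥ : Subobject A) = ⊥ := by
  have h1 : (t.tw n).functor.map (⊥ : Subobject A).arrow = 0 := by
    rw [Subobject.bot_arrow]
    exact Functor.map_zero _ _ _
  rw [eq_bot_iff]
  refine Subobject.le_of_comm 0 ?_
  rw [zero_comp]
  have h2 : (Subobject.mk ((t.tw n).functor.map (⊥ : Subobject A).arrow)).arrow = 0 :=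
    (Subobject.underlyingIso_hom_comp_eq_mk _).symm.trans
      ((congrArg (fun g => (Subobject.underlyingIso
        ((t.tw n).functor.map (⊥ : Subobject A).arrow)).hom ≫ g) h1).trans comp_zero)
  exact h2.symm

lemma sub_le_iff (t : Weights C) (n : ℕ) {A : C} {X Y : Subobject A} :
    t.sub n X ≤ t.sub n Y ↔ X ≤ Y := by
  constructor
  · intro h
    have h1 : Subobject.mk ((t.tw n).functor.map X.arrow) ≤
        Subobject.mk ((t.tw n).functor.map Y.arrow) := h
    have h2 := Subobject.ofMkLEMk_comp h1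
    refine Subobject.le_of_comm ((t.tw n).functor.preimage (Subobject.ofMkLEMk _ _ h1)) ?_
    apply (t.tw n).functor.map_injective
    rw [Functor.map_comp, Functor.map_preimage, h2]
  · intro h
    refine Subobject.mk_le_mk_of_comm ((t.tw n).functor.map (Subobject.ofLE X Y h)) ?_
    rw [← Functor.map_comp, Subobject.ofLE_arrow]

lemma sub_mk (t : Weights C) (n : ℕ) {A X : C} (x : X ⟶ A) [Mono x] :
    t.sub n (Subobject.mk x) =
      (Subobject.mk ((t.tw n).functor.map x) : Subobject ((t.tw n).functor.obj A)) := by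
  change (Subobject.mk ((t.tw n).functor.map (Subobject.mk x).arrow) :
    Subobject ((t.tw n).functor.obj A)) = _
  refine Subobject.mk_eq_mk_of_comm _ _ ((t.tw n).functor.mapIso (Subobject.underlyingIso x)) ?_
  rw [Functor.mapIso_hom, ← Functor.map_comp, Subobject.underlyingIso_hom_comp_eq_mk]

lemma imageOf_zero {A B : C} (S : Subobject A) : imageOf (0 : A ⟶ B) S = ⊥ := by
  rw [eq_bot_iff]
  exact imageSubobject_le (X := ⊥) _ 0 (by rw [zero_comp, comp_zero])

end Images

/-- **An object which is pure, with zero operator, is monodromy-pure only of its own weight.** -/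
theorem not_monodromyPure {t : Weights C} (ht : t.IsWeightTheory) {A : C}
    {N : A ⟶ t.T.functor.obj A} (hN : N = 0) {w w' : ℤ} (hw : w ≠ w') (hA : ¬ IsZero A)
    (hp : t.Pure w' A) : ¬ t.MonodromyPure w N := by
  rintro ⟨M, hM, hq⟩
  have h0 : ∀ n : ℕ, 1 ≤ n → t.pow N n = 0 := fun n hn => pow_eq_zero_of_zero N n hn hN
  -- the filtration is constant in positive degrees
  have h1 : ∀ a : ℕ, 1 ≤ a → M a ≤ M (a - 1) := by
    intro a ha
    refine le_trans (le_inf le_rfl ?_) (hM.inj a)
    rw [h0 a ha]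
    refine le_preimageOf _ _ _ 0 ?_
    rw [zero_comp, comp_zero]
  have h2 : ∀ a : ℕ, 1 ≤ a → M (-a) ≤ M (-a - 1) := by
    intro a ha
    have h3 := hM.surj a
    rw [h0 a ha, imageOf_zero, bot_sup_eq] at h3
    exact (sub_le_iff t a).1 h3
  have htop : M 0 = ⊤ := by
    obtain ⟨c, hc⟩ := hM.top
    have h3 : ∀ n : ℕ, M n ≤ M 0 := by
      intro n
      induction n with
      | zero => simp
      | succ n ih =>
        have h4 := h1 (n + 1) (by omega)
        have e : ((n + 1 : ℕ) : ℤ) - 1 = n := by push_cast; ring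
        rw [e] at h4
        exact h4.trans ih
    rw [eq_top_iff, ← hc]
    exact (hM.mono (Int.self_le_toNat c)).trans (h3 _)
  have hbot : M (-1) = ⊥ := by
    obtain ⟨c, hc⟩ := hM.bot
    have h3 : ∀ n : ℕ, M (-1) ≤ M (-1 - n) := by
      intro n
      induction n with
      | zero => simp
      | succ n ih =>
        refine ih.trans ?_
        have h4 := h2 (n + 1) (by omega)
        have e1 : -((n + 1 : ℕ) : ℤ) = -1 - n := by push_cast; ring
        have e2 : -1 - (n : ℤ) - 1 = -1 - ((n + 1 : ℕ) : ℤ) := by push_cast; ring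
        rw [e1, e2] at h4
        exact h4
    rw [eq_bot_iff, ← hc]
    refine (h3 (-1 - c).toNat).trans (hM.mono ?_)
    have := Int.self_le_toNat (-1 - c)
    linarith
  -- the graded piece of index zero
  have h5 := hq 0
  rw [show (0 : ℤ) - 1 = -1 by ring, hbot, htop, add_zero] at h5
  have h6 := h5 bot_le
  have h7 : Nonempty (cokernel (Subobject.ofLE (⊥ : Subobject A) ⊤ bot_le) ≅ A) := by
    have h8 : Subobject.ofLE (⊥ : Subobject A) ⊤ bot_le = 0 := by
      rw [← cancel_mono (⊤ : Subobject A).arrow, Subobject.ofLE_arrow, Subobject.bot_arrow,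
        zero_comp]
    refine ⟨(cokernelIsoOfEq h8) ≪≫ cokernelZeroIsoTarget ≪≫ ?_⟩
    exact asIso (⊤ : Subobject A).arrow
  obtain ⟨e⟩ := h7
  exact hA (ht.unique w w' A hw (ht.iso e h6) hp)

end Pool.Agent.TH177.MP
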