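import Pool.Agent.TH177.MP.Cat

/-!
# Objects with an operator of square zero, of the form `F ⟶ Q ≅ Z (-1) ⟶ F (-1)`
-/

open CategoryTheory Limits

universe u v

namespace Pool.Agent.TH177.MP

variable {C : Type u} [Category.{v} C] [Abelian C] {t : Weights C} {F K Z S Q : C}

lemma op_sq {z : Z ⟶ F} {q : F ⟶ Q} (hzq : z ≫ q = 0) (θ : Q ≅ t.T.functor.obj Z)
    {N : F ⟶ t.T.functor.obj F} (hN : N = q ≫ θ.hom ≫ t.T.functor.map z) : t.pow N 2 = 0 := by
  have h1 : t.T.functor.map z ≫ t.T.functor.map N = 0 := by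
    rw [← Functor.map_comp, hN, reassoc_of% hzq, zero_comp, Functor.map_zero]
  have h2 : N ≫ t.T.functor.map N = 0 := by
    conv_lhs => rw [hN]
    conv_lhs => rw [Category.assoc, Category.assoc]
    rw [← hN, h1, comp_zero, comp_zero]
  rw [pow_two']
  exact h2

/-- The filtration `0 ⊆ Z ⊆ K ⊆ F`. -/
noncomputable def fil (z : Z ⟶ F) (κ : K ⟶ F) [Mono z] [Mono κ] (a : ℤ) : Subobject F :=
  if a ≤ -2 then ⊥ else if a = -1 then Subobject.mk z else if a = 0 then Subobject.mk κ else ⊤

section

variable (z : Z ⟶ F) (κ : K ⟶ F) [Mono z] [Mono κ]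

lemma fil_of_le {a : ℤ} (ha : a ≤ -2) : fil z κ a = ⊥ := by rw [fil, if_pos ha]

lemma fil_neg_one : fil z κ (-1) = Subobject.mk z := by
  rw [fil, if_neg (by omega), if_pos rfl]

lemma fil_zero : fil z κ 0 = Subobject.mk κ := by
  rw [fil, if_neg (by omega), if_neg (by omega), if_pos rfl]

lemma fil_of_pos {a : ℤ} (ha : 1 ≤ a) : fil z κ a = ⊤ := by
  rw [fil, if_neg (by omega), if_neg (by omega), if_neg (by omega)]

lemma fil_mono (ι : Z ⟶ K) (hι : ι ≫ κ = z) : Monotone (fil z κ) := by
  refine monotone_int_of_le_succ fun a => ?_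
  rcases lt_trichotomy a (-1) with h | h | h
  · rw [fil_of_le z κ (by omega)]; exact bot_le
  · subst h
    rw [fil_neg_one, show (-1 : ℤ) + 1 = 0 by ring, fil_zero]
    exact Subobject.mk_le_mk_of_comm ι hι
  · rw [fil_of_pos z κ (a := a + 1) (by omega)]; exact le_top

end

/-- The image of a composition of an epimorphism and a monomorphism. -/
lemma mk_le_imageSubobject {A B D : C} (f : A ⟶ B) (e : A ⟶ D) [Epi e] (m : D ⟶ B) [Mono m]
    (hf : f = e ≫ m) : Subobject.mk m ≤ imageSubobject f := by
  -- factor `D` through the image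
  have hk : kernel.ι e ≫ factorThruImageSubobject f = 0 := by
    rw [← cancel_mono (imageSubobject f).arrow, Category.assoc,
      imageSubobject_arrow_comp, zero_comp, hf, kernel.condition_assoc, zero_comp]
  have hcol := Abelian.epiIsCokernelOfKernel (KernelFork.ofι (kernel.ι e)
    (kernel.condition e)) (kernelIsKernel e)
  obtain ⟨l, hl⟩ := CokernelCofork.IsColimit.desc' hcol (factorThruImageSubobject f) hk
  have hl' : e ≫ l = factorThruImageSubobject f := hl
  refine Subobject.mk_le_of_comm l ?_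
  rw [← cancel_epi e, ← Category.assoc, hl', imageSubobject_arrow_comp, ← hf]

section

variable {z : Z ⟶ F} {κ : K ⟶ F} [Mono z] [Mono κ] (ι : Z ⟶ K) (hι : ι ≫ κ = z) {q : F ⟶ Q}
  [Epi q] (w : κ ≫ q = 0) (hex : (ShortComplex.mk κ q w).Exact) (θ : Q ≅ t.T.functor.obj Z)
  {N : F ⟶ t.T.functor.obj F} (hN : N = q ≫ θ.hom ≫ t.T.functor.map z)

include hι w hex hN in
lemma isFiltration : t.IsMonodromyFiltration N (fil z κ) := by
  have hmono := fil_mono z κ ι hι
  have hzq : z ≫ q = 0 := by rw [← hι, Category.assoc, w, comp_zero]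
  have hpow : ∀ n, 2 ≤ n → t.pow N n = 0 := pow_eq_zero _ (op_sq hzq θ hN)
  refine ⟨hmono, ⟨-2, fil_of_le z κ le_rfl⟩, ⟨1, fil_of_pos z κ le_rfl⟩, ?_, ?_, ?_⟩
  · intro a
    rw [pow_one']
    rcases le_or_gt 1 a with ha | ha
    · -- the operator has image in the twist of `Z`
      have h1 : t.sub 1 (fil z κ (-1)) ≤ t.sub 1 (fil z κ (a - 2)) :=
        (sub_le_iff t 1).2 (hmono (by omega))
      have h2 : fil z κ a ≤ preimageOf N (t.sub 1 (fil z κ (-1))) := by
        rw [fil_neg_one, sub_mk]
        refine le_preimageOf _ _ _ ((fil z κ a).arrow ≫ (q ≫ θ.hom) ≫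
          (Subobject.underlyingIso ((t.tw 1).functor.map z)).inv) ?_
        have h3 : (Subobject.underlyingIso ((t.tw 1).functor.map z)).inv ≫
          (Subobject.mk ((t.tw 1).functor.map z)).arrow = (t.tw 1).functor.map z :=
            Subobject.underlyingIso_arrow _
        have h4 : N = q ≫ θ.hom ≫ (t.tw 1).functor.map z := hN
        refine (Category.assoc _ _ _).trans ?_
        refine congrArg (fun g => (fil z κ a).arrow ≫ g) ?_
        refine (Category.assoc _ _ _).trans ?_
        refine (congrArg (fun g => (q ≫ θ.hom) ≫ g) h3).trans ?_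
        refine (Category.assoc _ _ _).trans ?_
        exact h4.symm
      refine h2.trans ?_
      exact (Subobject.pullback N).monotone h1
    · -- the operator is zero
      have h2 : (fil z κ a).arrow ≫ N = 0 := by
        have h3 : fil z κ a ≤ fil z κ 0 := hmono (by omega)
        have h4 : (fil z κ 0).arrow ≫ N = 0 := by
          rw [fil_zero]
          rw [← cancel_epi (Subobject.underlyingIso κ).inv, comp_zero,
            Subobject.underlyingIso_arrow_assoc, hN, reassoc_of% w, zero_comp]
        rw [← Subobject.ofLE_arrow h3, Category.assoc, h4, comp_zero]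
      refine le_preimageOf _ _ _ 0 ?_
      exact zero_comp.trans h2.symm
  · intro a
    rcases Nat.lt_or_ge a 2 with ha | ha
    · rcases Nat.eq_zero_or_pos a with rfl | h0
      · -- index zero
        refine inf_le_right.trans ?_
        have e : (-((0 : ℕ) : ℤ) - 1) = ((0 : ℕ) : ℤ) - 1 := by simp
        rw [e]
        set R := fil z κ (((0 : ℕ) : ℤ) - 1)
        change preimageOf (𝟙 F) (Subobject.mk R.arrow) ≤ R
        rw [Subobject.mk_arrow]
        change (Subobject.pullback (𝟙 F)).obj R ≤ R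
        rw [Subobject.pullback_id]
      · obtain rfl : a = 1 := by omega
        -- the kernel of the operator
        have e1 : (-((1 : ℕ) : ℤ) - 1) = -2 := by norm_num
        have e2 : ((1 : ℕ) : ℤ) - 1 = 0 := by norm_num
        rw [e1, e2, fil_of_le z κ le_rfl, sub_bot, pow_one', fil_zero]
        refine inf_le_right.trans ?_
        obtain ⟨R, hR⟩ : ∃ R, R = preimageOf N (⊥ : Subobject (t.T.functor.obj F)) := ⟨_, rfl⟩
        change preimageOf N (⊥ : Subobject (t.T.functor.obj F)) ≤ _
        rw [← hR]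
        obtain ⟨g, hg⟩ := preimageOf_arrow N ⊥ (R := R) hR.le
        rw [Subobject.bot_arrow, comp_zero] at hg
        have h1 : R.arrow ≫ q = 0 := by
          have h2 : (R.arrow ≫ q) ≫ (θ.hom ≫ t.T.functor.map z) = 0 := by
            rw [hN] at hg
            rw [Category.assoc]
            exact hg.symm
          have : Mono (θ.hom ≫ t.T.functor.map z) := mono_comp _ _
          exact zero_of_comp_mono _ h2
        have h3 : ∃ l : (R : C) ⟶ K, l ≫ κ = R.arrow :=
          ⟨hex.lift R.arrow h1, hex.lift_f _ _⟩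
        obtain ⟨l, hl⟩ := h3
        exact Subobject.le_mk_of_comm l hl
    · rw [fil_of_pos z κ (a := (a : ℤ) - 1) (by omega)]
      exact le_top
  · intro a
    rcases Nat.lt_or_ge a 2 with ha | ha
    · rcases Nat.eq_zero_or_pos a with rfl | h0
      · refine le_trans ?_ le_sup_left
        have e : -((0 : ℕ) : ℤ) = ((0 : ℕ) : ℤ) := by simp
        rw [e]
        set R := fil z κ ((0 : ℕ) : ℤ)
        change Subobject.mk R.arrow ≤ imageSubobject (R.arrow ≫ 𝟙 F)
        have h1 : R.arrow ≫ 𝟙 F = R.arrow := Category.comp_id _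
        refine Subobject.mk_le_of_comm (factorThruImageSubobject (R.arrow ≫ 𝟙 F)) ?_
        rw [imageSubobject_arrow_comp, h1]
      · obtain rfl : a = 1 := by omega
        refine le_trans ?_ le_sup_left
        have e1 : (-((1 : ℕ) : ℤ)) = -1 := by norm_num
        rw [e1, fil_neg_one, sub_mk, pow_one', fil_of_pos z κ (a := ((1 : ℕ) : ℤ)) (by norm_num)]
        change (Subobject.mk (t.T.functor.map z) : Subobject (t.T.functor.obj F)) ≤
          imageSubobject ((⊤ : Subobject F).arrow ≫ N)
        -- the image of the operator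
        obtain ⟨e, he⟩ : ∃ e : ((⊤ : Subobject F) : C) ⟶ t.T.functor.obj Z,
          e = (⊤ : Subobject F).arrow ≫ q ≫ θ.hom := ⟨_, rfl⟩
        have hepi : Epi e := by
          rw [he]
          infer_instance
        have hfac : (⊤ : Subobject F).arrow ≫ N = e ≫ t.T.functor.map z := by
          rw [he, hN]
          simp only [Category.assoc]
        exact mk_le_imageSubobject _ e (t.T.functor.map z) hfac
    · rw [fil_of_le z κ (a := -(a : ℤ)) (by omega), sub_bot]
      exact bot_le

include hι w hex hN in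
/-- **A monodromy-pure object.** -/
theorem isPure {c : K ⟶ S} [Epi c] (wc : ι ≫ c = 0) (hc : (ShortComplex.mk ι c wc).Exact)
    (ht : t.IsWeightTheory) {n : ℤ} (hZ : t.Pure (n - 1) Z) (hS : t.Pure n S)
    (hQ : t.Pure (n + 1) Q) : t.MonodromyPure n N := by
  refine ⟨fil z κ, isFiltration ι hι w hex θ hN, ?_⟩
  intro a
  have hzero : ∀ (X : C) (m : ℤ), t.Pure m (cokernel (𝟙 X)) := fun X m =>
    ht.zero _ _ (isZero_cokernel_of_epi (𝟙 X))
  rcases lt_trichotomy a (-1) with h | h | h
  · rw [fil_of_le z κ (a := a - 1) (by omega), fil_of_le z κ (a := a) (by omega),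
      Subobject.bot_eq_zero]
    exact pureQuotient_mk ht _ _ (𝟙 _) (Category.id_comp _) (hzero _ _)
  · subst h
    rw [fil_of_le z κ (a := -1 - 1) (by omega), fil_neg_one, Subobject.bot_eq_zero]
    refine pureQuotient_mk ht _ _ 0 (by rw [zero_comp]) ?_
    have e : n + -1 = n - 1 := by ring
    rw [e]
    exact ht.iso cokernelZeroIsoTarget.symm hZ
  · rcases (show a = 0 ∨ a = 1 ∨ 2 ≤ a by omega) with rfl | rfl | h2
    · rw [show (0 : ℤ) - 1 = -1 by ring, fil_neg_one, fil_zero, add_zero]
      refine pureQuotient_mk ht _ _ ι hι ?_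
      have e : cokernel ι ≅ S :=
        (cokernelIsCokernel _).coconePointUniqueUpToIso hc.gIsCokernel
      exact ht.iso e.symm hS
    · rw [show (1 : ℤ) - 1 = 0 by ring, fil_zero, fil_of_pos z κ le_rfl, Subobject.top_eq_id]
      refine pureQuotient_mk ht _ _ κ (Category.comp_id _) ?_
      have e : cokernel κ ≅ Q :=
        (cokernelIsCokernel _).coconePointUniqueUpToIso hex.gIsCokernel
      exact ht.iso e.symm hQ
    · rw [fil_of_pos z κ (a := a - 1) (by omega), fil_of_pos z κ (a := a) (by omega),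
        Subobject.top_eq_id]
      exact pureQuotient_mk ht _ _ (𝟙 _) (Category.id_comp _) (hzero _ _)

end

/-- A zero object is monodromy-pure of all weights. -/
lemma monodromyPure_of_isZero (ht : t.IsWeightTheory) {A : C} (hA : IsZero A) (n : ℤ)
    (N : A ⟶ t.T.functor.obj A) : t.MonodromyPure n N := by
  have hsub : ∀ (m : ℕ) (X Y : Subobject (t.obj m A)), X ≤ Y := by
    intro m X Y
    have hB : IsZero (t.obj m A) := (t.tw m).functor.map_isZero hA
    have h1 : ∀ X : Subobject (t.obj m A), IsZero (X : C) := fun X => IsZero.of_mono X.arrow hB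
    exact Subobject.le_of_comm 0 ((h1 X).eq_of_src _ _)
  have hsub' : ∀ (X Y : Subobject A), X ≤ Y := fun X Y => hsub 0 X Y
  refine ⟨fun _ => ⊥, ⟨fun _ _ _ => le_rfl, ⟨0, rfl⟩, ⟨0, le_antisymm (hsub' _ _) (hsub' _ _)⟩,
    fun a => hsub' _ _, fun a => hsub' _ _, fun a => hsub _ _ _⟩, ?_⟩
  intro a h
  exact ht.zero _ _ (IsZero.of_epi (cokernel.π _) (IsZero.of_mono (⊥ : Subobject A).arrow hA))

end Pool.Agent.TH177.MP
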