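import Pool.Agent.TH177.MP.Theory
import Pool.Agent.TH177.MP.Ex

/-!
# The counterexample
-/

open CategoryTheory Limits AlgebraicGeometry

universe u v w

namespace Pool.Agent.TH177.MP

section Abstract

variable {C : Type u} [Category.{v} C] [Abelian C] {t : Weights C} {S J Q Z V : C}

/-- The fibre product of `V ⟶ Q` and `J ⟶ Q`, with an operator which is compatible with the operator
`V ⟶ Q ≅ Z (-1) ⟶ V (-1)` of `V` and the zero operator of `J`. -/
theorem fibreProduct_isPure (ht : t.IsWeightTheory) (s : S ⟶ J) (p : J ⟶ Q) (sp : s ≫ p = 0)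
    (hsp : (ShortComplex.mk s p sp).ShortExact) (z : Z ⟶ V) (q : V ⟶ Q) (zq : z ≫ q = 0)
    (hzq : (ShortComplex.mk z q zq).ShortExact) (θ : Q ≅ t.T.functor.obj Z) {F : C}
    (α : F ≅ pullback q p) (N : F ⟶ t.T.functor.obj F)
    (hV : N ≫ t.T.functor.map (α.hom ≫ pullback.fst q p) =
      (α.hom ≫ pullback.fst q p) ≫ q ≫ θ.hom ≫ t.T.functor.map z)
    (hJ : N ≫ t.T.functor.map (α.hom ≫ pullback.snd q p) = 0)
    {n : ℤ} (hZ : t.Pure (n - 1) Z) (hS : t.Pure n S) (hQ : t.Pure (n + 1) Q) :
    t.MonodromyPure n N := by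
  have hs : Mono s := hsp.mono_f
  have hp : Epi p := hsp.epi_g
  have hz : Mono z := hzq.mono_f
  have hq : Epi q := hzq.epi_g
  -- the projections of `F`
  obtain ⟨a, ha⟩ : ∃ a : F ⟶ V, a = α.hom ≫ pullback.fst q p := ⟨_, rfl⟩
  obtain ⟨b, hb⟩ : ∃ b : F ⟶ J, b = α.hom ≫ pullback.snd q p := ⟨_, rfl⟩
  rw [← ha] at hV
  rw [← hb] at hJ
  have hsq : IsPullback a b q p := by
    rw [ha, hb]
    exact (IsPullback.of_hasPullback q p).of_iso α.symm (Iso.refl _) (Iso.refl _) (Iso.refl _)
      (by simp) (by simp) (by simp) (by simp)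
  have hbepi : Epi b := by rw [hb]; infer_instance
  -- `Z` as a subobject of `F`
  obtain ⟨x, hxa, hxb⟩ : ∃ x : Z ⟶ F, x ≫ a = z ∧ x ≫ b = 0 :=
    ⟨hsq.lift z 0 (by rw [zq, zero_comp]), hsq.lift_fst _ _ _, hsq.lift_snd _ _ _⟩
  have hx : Mono x := by
    have : Mono (x ≫ a) := by rw [hxa]; exact hz
    exact mono_of_mono x a
  have hxker : ∀ {W : C} (g : W ⟶ F), g ≫ b = 0 → ∃ l : W ⟶ Z, l ≫ x = g := by
    intro W g hg
    have h1 : (g ≫ a) ≫ q = 0 := by
      rw [Category.assoc, hsq.w, reassoc_of% hg, zero_comp]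
    refine ⟨hzq.exact.lift (g ≫ a) h1, hsq.hom_ext ?_ ?_⟩
    · rw [Category.assoc, hxa]
      exact hzq.exact.lift_f _ _
    · rw [Category.assoc, hxb, comp_zero, hg]
  -- the kernel of `F ⟶ Q`
  have hK : IsPullback (pullback.fst s b) (pullback.snd s b) s b := IsPullback.of_hasPullback s b
  obtain ⟨K, c, κ, hKp, hc, hκ⟩ : ∃ (K : C) (c : K ⟶ S) (κ : K ⟶ F), IsPullback c κ s b ∧
      Epi c ∧ Mono κ := ⟨pullback s b, pullback.fst s b, pullback.snd s b,
      IsPullback.of_hasPullback s b, inferInstance, inferInstance⟩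
  obtain ⟨ι, hιc, hικ⟩ : ∃ ι : Z ⟶ K, ι ≫ c = 0 ∧ ι ≫ κ = x :=
    ⟨hKp.lift 0 x (by rw [zero_comp, hxb]), hKp.lift_fst _ _ _, hKp.lift_snd _ _ _⟩
  have hι : Mono ι := by
    have : Mono (ι ≫ κ) := by rw [hικ]; exact hx
    exact mono_of_mono ι κ
  have hκbp : κ ≫ b ≫ p = 0 := by
    rw [← Category.assoc, ← hKp.w, Category.assoc, sp, comp_zero]
  have hbp : Epi (b ≫ p) := epi_comp _ _
  -- exactness of `K ⟶ F ⟶ Q`
  have hex : (ShortComplex.mk κ (b ≫ p) hκbp).Exact := by
    refine ShortComplex.exact_of_f_is_kernel _ (KernelFork.IsLimit.ofι' _ _ fun {W} g hg => ?_)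
    have hg' : g ≫ b ≫ p = 0 := hg
    have h1 : (g ≫ b) ≫ p = 0 := by rw [Category.assoc]; exact hg'
    exact ⟨hKp.lift (hsp.exact.lift (g ≫ b) h1) g (hsp.exact.lift_f _ _), hKp.lift_snd _ _ _⟩
  -- exactness of `Z ⟶ K ⟶ S`
  have hexc : (ShortComplex.mk ι c hιc).Exact := by
    refine ShortComplex.exact_of_f_is_kernel _ (KernelFork.IsLimit.ofι' _ _ fun {W} g hg => ?_)
    have hg' : g ≫ c = 0 := hg
    have h1 : (g ≫ κ) ≫ b = 0 := by
      rw [Category.assoc, ← hKp.w, reassoc_of% hg', zero_comp]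
    refine ⟨(hxker (g ≫ κ) h1).choose, ?_⟩
    have h2 := (hxker (g ≫ κ) h1).choose_spec
    rw [← cancel_mono κ]
    change ((hxker (g ≫ κ) h1).choose ≫ ι) ≫ κ = _
    rw [Category.assoc, hικ, h2]
  -- the operator
  have hN : N = (b ≫ p) ≫ θ.hom ≫ t.T.functor.map x := by
    have hsqT := hsq.map t.T.functor
    refine hsqT.hom_ext ?_ ?_
    · rw [hV]
      simp only [Category.assoc]
      rw [← Functor.map_comp, hxa, ← reassoc_of% hsq.w]
    · rw [hJ]
      simp only [Category.assoc]
      rw [← Functor.map_comp, hxb, Functor.map_zero, comp_zero, comp_zero, comp_zero]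
  exact isPure ι hικ hκbp hex θ hN hιc hexc ht hZ hS hQ

end Abstract

namespace Theory

variable {k : Type u} [Field k] {P : Theory.{u, v, w} k}

/-- The counterexample: the fibre product over `Q` of the Kummer extension `V` and of `J`. -/
theorem exists_not_monodromyPure (hP : P.IsTheory) (L : P.LineSheaves) :
    ∃ F : P.Perv (projectiveSpace k 1), P.MonodromyPure 0 ((P.incl _).obj F) ∧
      ¬ P.MonodromyPure 0 ((P.push (toPoint k 1)).obj ((P.incl _).obj F)) := by
  have ht := hP.weight (projectiveSpace k 1)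
  have hy := hP.weight (point k)
  obtain ⟨⟨S, J, Q, Z, V, s, p, z, q, θ, ⟨sp, hsp⟩, ⟨zq, hzq⟩, NJ, NV⟩, hS, hQ, cJ, cQ⟩ := L
  have hZ : (P.weights (projectiveSpace k 1)).Pure (-1) Z := by
    refine (ht.twist (-1) Z).1 ?_
    rw [show (-1 : ℤ) + 2 = 1 by norm_num]
    exact ht.iso θ hQ
  have hq : Epi q := hzq.epi_g
  have hp : Epi p := hsp.epi_g
  have hz : Mono z := hzq.mono_f
  refine ⟨pullback q p, ?_, ?_⟩
  · -- the perverse sheaf is monodromy-pure
    intro i
    rcases eq_or_ne i 0 with rfl | hi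
    · obtain ⟨e⟩ := (hP.heart (projectiveSpace k 1)).1
      refine fibreProduct_isPure ht s p sp hsp z q zq hzq θ (e.app (pullback q p)) _ ?_ ?_ ?_ ?_ ?_
      · have h1 := (P.N (projectiveSpace k 1)).naturality ((e.app (pullback q p)).hom ≫
          pullback.fst q p)
        rw [NV] at h1
        exact h1.symm
      · have h1 := (P.N (projectiveSpace k 1)).naturality ((e.app (pullback q p)).hom ≫
          pullback.snd q p)
        rw [NJ, comp_zero] at h1
        exact h1.symm
      · exact hZ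
      · exact hS
      · exact hQ
    · exact monodromyPure_of_isZero ht ((hP.heart _).2 i _ hi) _ _
  · -- its direct image is not
    intro hpure
    have h1 := hpure (-1)
    obtain ⟨R, hR⟩ : ∃ R : ℤ → (P.Perv (projectiveSpace k 1) ⥤ P.Perv (point k)),
      R = P.direct (toPoint k 1) := ⟨_, rfl⟩
    change P.PerverseMonodromyPure (0 + -1) ((P.direct (toPoint k 1) (-1)).obj (pullback q p)) at h1
    -- the exact sequence of `Z ⟶ F ⟶ J`
    obtain ⟨x, hxa, hxb⟩ : ∃ x : Z ⟶ pullback q p, x ≫ pullback.fst q p = z ∧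
        x ≫ pullback.snd q p = 0 :=
      ⟨pullback.lift z 0 (by rw [zq, zero_comp]), pullback.lift_fst _ _ _, pullback.lift_snd _ _ _⟩
    have hx : Mono x := by
      have : Mono (x ≫ pullback.fst q p) := by rw [hxa]; exact hz
      exact mono_of_mono x (pullback.fst q p)
    have hE : (ShortComplex.mk x (pullback.snd q p) hxb).ShortExact := by
      have hexc : (ShortComplex.mk x (pullback.snd q p) hxb).Exact := by
        refine ShortComplex.exact_of_f_is_kernel _ (KernelFork.IsLimit.ofι' _ _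
          fun {W} g hg => ?_)
        have hg' : g ≫ pullback.snd q p = 0 := hg
        have h2 : (g ≫ pullback.fst q p) ≫ q = 0 := by
          rw [Category.assoc, pullback.condition, reassoc_of% hg', zero_comp]
        refine ⟨hzq.exact.lift (g ≫ pullback.fst q p) h2, pullback.hom_ext ?_ ?_⟩
        · change (_ ≫ x) ≫ pullback.fst q p = _
          rw [Category.assoc, hxa]
          exact hzq.exact.lift_f _ _
        · change (_ ≫ x) ≫ pullback.snd q p = _
          rw [Category.assoc, hxb, comp_zero, hg']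
      have : Epi (pullback.snd q p) := inferInstance
      exact { exact := hexc, mono_f := hx, epi_g := this }
    have hadd := hP.additive (toPoint k 1)
    -- the map on the cohomology of degree `-1` is an isomorphism
    have hmono : Mono ((P.direct (toPoint k 1) (-1)).map x) := by
      obtain ⟨δ, -, -, w3, hex3⟩ := hP.long_exact (toPoint k 1) (-2) _ _ _ _ _ ⟨_, hE⟩
      have hδ : δ = 0 := (cJ (-2) (by norm_num)).eq_of_src _ _
      exact (hex3.mono_g hδ)
    have hepi : Epi ((P.direct (toPoint k 1) (-1)).map x) := by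
      obtain ⟨δ, ⟨w1, hex1⟩, -, -⟩ := hP.long_exact (toPoint k 1) (-1) _ _ _ _ _ ⟨_, hE⟩
      refine hex1.epi_f ?_
      exact (cJ (-1) (by norm_num)).eq_of_tgt _ _
    have hiso : IsIso ((P.direct (toPoint k 1) (-1)).map x) := isIso_of_mono_of_epi _
    -- the operator vanishes
    have hNZ : (P.N (projectiveSpace k 1)).app Z = 0 := by
      have h2 := (P.N (projectiveSpace k 1)).naturality z
      rw [NV] at h2
      have h3 : (P.N (projectiveSpace k 1)).app Z ≫
          (P.weights (projectiveSpace k 1)).T.functor.map z = 0 := by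
        refine h2.symm.trans ?_
        change z ≫ q ≫ _ = 0
        rw [reassoc_of% zq, zero_comp]
      exact zero_of_comp_mono _ h3
    obtain ⟨e, he⟩ := hP.monodromy (toPoint k 1) (-1)
    have hNRZ : (P.N (point k)).app ((P.direct (toPoint k 1) (-1)).obj Z) = 0 := by
      rw [← he Z, hNZ, Functor.map_zero, zero_comp]
    have hNRF : (P.N (point k)).app ((P.direct (toPoint k 1) (-1)).obj (pullback q p)) = 0 := by
      have h2 := (P.N (point k)).naturality ((P.direct (toPoint k 1) (-1)).map x)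
      rw [hNRZ, zero_comp] at h2
      have h3 : (P.direct (toPoint k 1) (-1)).map x ≫
        (P.N (point k)).app ((P.direct (toPoint k 1) (-1)).obj (pullback q p)) = 0 := h2
      exact zero_of_epi_comp _ h3
    -- the weight
    have hpZ : (P.weights (point k)).Pure (-1 + -1) ((P.direct (toPoint k 1) (-1)).obj Z) :=
      hP.pure (toPoint k 1) (isProjective_toPoint k 1) (-1) (-1) Z hZ
    have hpF : (P.weights (point k)).Pure (-1 + -1)
        ((P.direct (toPoint k 1) (-1)).obj (pullback q p)) :=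
      hy.iso (asIso ((P.direct (toPoint k 1) (-1)).map x)) hpZ
    -- the object is not zero
    have hne : ¬ IsZero ((P.direct (toPoint k 1) (-1)).obj (pullback q p)) := by
      intro h0
      apply cQ
      have h2 : IsZero ((P.direct (toPoint k 1) (-1)).obj Z) :=
        h0.of_iso (asIso ((P.direct (toPoint k 1) (-1)).map x))
      have h3 : IsZero ((P.weights (point k)).T.functor.obj
        ((P.direct (toPoint k 1) (-1)).obj Z)) := (P.weights (point k)).T.functor.map_isZero h2
      exact h3.of_iso ((P.direct (toPoint k 1) (-1)).mapIso θ ≪≫ e.app Z)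
    exact not_monodromyPure hy hNRF (by norm_num) hne hpF h1

/-- **The conjecture is false.** -/
theorem not_projectivePushforward (hP : P.IsTheory) (L : P.LineSheaves) :
    ¬ P.ProjectivePushforward := by
  intro h
  obtain ⟨F, hF, hF'⟩ := exists_not_monodromyPure hP L
  exact hF' (h _ _ (toPoint k 1) (isProjective_toPoint k 1) 0 _ hF)

end Theory

end Pool.Agent.TH177.MP
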