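import Mathlib

/-!
# Monodromy-pure objects of an abelian category with a Tate twist and weights
-/

open CategoryTheory Limits

universe u v

namespace Pool.Agent.TH177.MP

variable {C : Type u} [Category.{v} C] [Abelian C]

/-- An abelian category (of mixed perverse sheaves) with an autoequivalence `T`, the Tate twist
`A ↦ A (-1)`, and for all integers `w` the property of being pure of weight `w`. -/
structure Weights (C : Type u) [Category.{v} C] where
  T : C ≌ C
  Pure : ℤ → C → Prop

/-- The Tate twist `A ↦ A (-n)`. -/
def Weights.tw (t : Weights C) : ℕ → (C ≌ C)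
  | 0 => CategoryTheory.Equivalence.refl
  | n + 1 => t.T.trans (t.tw n)

/-- The object `A (-n)`. -/
def Weights.obj (t : Weights C) (n : ℕ) (A : C) : C := (t.tw n).functor.obj A

/-- The `n`-th power of the operator `N : A ⟶ A (-1)`. -/
def Weights.pow (t : Weights C) {A : C} (N : A ⟶ t.T.functor.obj A) :
    ∀ n : ℕ, A ⟶ t.obj n A
  | 0 => 𝟙 A
  | n + 1 => t.pow N n ≫ (t.tw n).functor.map N

/-- The subobject `S (-n)` of `A (-n)`. -/
noncomputable def Weights.sub (t : Weights C) (n : ℕ) {A : C} (S : Subobject A) :
    Subobject (t.obj n A) :=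
  (Subobject.mk ((t.tw n).functor.map S.arrow) : Subobject ((t.tw n).functor.obj A))

/-- The image of the subobject `S` of `A` under the morphism `f`. -/
noncomputable def imageOf {A B : C} (f : A ⟶ B) (S : Subobject A) : Subobject B :=
  imageSubobject (S.arrow ≫ f)

/-- The preimage of the subobject `S` of `B` under the morphism `f`. -/
noncomputable def preimageOf {A B : C} (f : A ⟶ B) (S : Subobject B) : Subobject A :=
  (Subobject.pullback f).obj S

/-- `M` is the monodromy filtration of the operator `N : A ⟶ A (-1)`: it is increasing and finite, `N`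
maps `M a` to `M (a - 2) (-1)`, and `N ^ a` induces an isomorphism from the graded piece of index `a` to
the graded piece of index `- a` twisted by `(-a)`, for `a ≥ 0`. -/
structure Weights.IsMonodromyFiltration (t : Weights C) {A : C} (N : A ⟶ t.T.functor.obj A)
    (M : ℤ → Subobject A) : Prop where
  mono : Monotone M
  bot : ∃ a, M a = ⊥
  top : ∃ a, M a = ⊤
  map : ∀ a, M a ≤ preimageOf (t.pow N 1) (t.sub 1 (M (a - 2)))
  inj : ∀ a : ℕ, M a ⊓ preimageOf (t.pow N a) (t.sub a (M (-a - 1))) ≤ M (a - 1)
  surj : ∀ a : ℕ, t.sub a (M (-a)) ≤ imageOf (t.pow N a) (M a) ⊔ t.sub a (M (-a - 1))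

/-- The object `Y / X` is pure of weight `w`, for subobjects `X ≤ Y`. -/
def Weights.PureQuotient (t : Weights C) (w : ℤ) {A : C} (X Y : Subobject A) : Prop :=
  ∀ h : X ≤ Y, t.Pure w (cokernel (Subobject.ofLE X Y h))

/-- The object `A` with the operator `N` is monodromy-pure of weight `w`: the graded piece of index
`a` of the monodromy filtration of `N` is pure of weight `w + a`, for all `a`. -/
def Weights.MonodromyPure (t : Weights C) (w : ℤ) {A : C} (N : A ⟶ t.T.functor.obj A) : Prop :=
  ∃ M : ℤ → Subobject A, t.IsMonodromyFiltration N M ∧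
    ∀ a, t.PureQuotient (w + a) (M (a - 1)) (M a)

/-- The properties of the weights: purity is invariant under isomorphisms, zero is pure of all
weights, `A (-1)` is pure of weight `w + 2` if and only if `A` is pure of weight `w`, and objects
which are pure of two different weights are zero. -/
structure Weights.IsWeightTheory (t : Weights C) : Prop where
  iso : ∀ {w : ℤ} {A B : C}, (A ≅ B) → t.Pure w A → t.Pure w B
  zero : ∀ (w : ℤ) (A : C), IsZero A → t.Pure w A
  twist : ∀ (w : ℤ) (A : C), t.Pure (w + 2) (t.T.functor.obj A) ↔ t.Pure w A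
  unique : ∀ (w w' : ℤ) (A : C), w ≠ w' → t.Pure w A → t.Pure w' A → IsZero A

end Pool.Agent.TH177.MP
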