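import Mathlib

/-!
# Projective spaces and projective morphisms between schemes of finite type over a field
-/

open CategoryTheory Limits AlgebraicGeometry

universe u

namespace Pool.Agent.TH177.MP

variable (k : Type u) [Field k]

/-- A scheme of finite type over `k`. -/
structure FTScheme where
  /-- the underlying scheme over `Spec k` -/
  toOver : Over (Spec (CommRingCat.of k))
  locallyOfFiniteType : LocallyOfFiniteType toOver.hom
  quasiCompact : QuasiCompact toOver.hom

/-- The grading of the polynomial ring `k[x₀, …, xₙ]`. -/
noncomputable def grading (n : ℕ) : ℕ → Submodule k (MvPolynomial (Fin (n + 1)) k) :=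
  MvPolynomial.homogeneousSubmodule (Fin (n + 1)) k

noncomputable instance (n : ℕ) : GradedAlgebra (grading k n) :=
  MvPolynomial.gradedAlgebra (σ := Fin (n + 1)) (R := k)

/-- The scheme `Proj k[x₀, …, xₙ]`. -/
noncomputable def projScheme (n : ℕ) : Scheme.{u} := Proj (grading k n)

/-- The part of degree zero of `k[x₀, …, xₙ]`. -/
noncomputable def zeroRing (n : ℕ) : CommRingCat.{u} := CommRingCat.of (grading k n 0)

/-- The structure morphism from `Proj k[x₀, …, xₙ]` to the spectrum of the part of degree zero. -/
noncomputable def projToSpecZero (n : ℕ) : projScheme k n ⟶ Spec (zeroRing k n) :=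
  Proj.toSpecZero (grading k n)

/-- The inclusion of `k` in the part of degree zero. -/
noncomputable def zeroRingHom (n : ℕ) : k →+* grading k n 0 := algebraMap k (grading k n 0)

/-- The inclusion of `k` in the part of degree zero. -/
noncomputable def zeroHom (n : ℕ) : CommRingCat.of k ⟶ zeroRing k n :=
  CommRingCat.ofHom (zeroRingHom k n)

/-- The structure morphism `ℙⁿ ⟶ Spec k` of the projective space, the `Proj` of the graded ring
`k[x₀, …, xₙ]`. -/
noncomputable def projectiveSpaceHom (n : ℕ) : projScheme k n ⟶ Spec (CommRingCat.of k) :=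
  projToSpecZero k n ≫ Spec.map (zeroHom k n)

variable {k} in
/-- A morphism `f : X ⟶ Y` is projective if it is the composition of a closed immersion of `X` in
`ℙⁿ_Y = Y ×_k ℙⁿ_k`, for some `n`, and the projection to `Y`. -/
def IsProjective {X Y : FTScheme k} (f : X.toOver ⟶ Y.toOver) : Prop :=
  ∃ (n : ℕ) (i : X.toOver.left ⟶ pullback Y.toOver.hom (projectiveSpaceHom k n)),
    IsClosedImmersion i ∧ i ≫ pullback.fst Y.toOver.hom (projectiveSpaceHom k n) = f.left

lemma finiteType_zero (n : ℕ) :
    Algebra.FiniteType (grading k n 0) (MvPolynomial (Fin (n + 1)) k) := by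
  have h1 : IsScalarTower k (grading k n 0) (MvPolynomial (Fin (n + 1)) k) :=
    IsScalarTower.of_algebraMap_eq' (R := k)
      (S := grading k n 0)
      (A := MvPolynomial (Fin (n + 1)) k) (RingHom.ext fun x => rfl)
  exact Algebra.FiniteType.of_restrictScalars_finiteType k
    (grading k n 0) (MvPolynomial (Fin (n + 1)) k)

lemma surjective_algebraMap_zero (n : ℕ) : Function.Surjective
    (algebraMap k (grading k n 0)) := by
  rintro ⟨x, hx⟩
  rw [grading, MvPolynomial.homogeneousSubmodule_zero, Submodule.mem_one] at hx
  obtain ⟨y, hy⟩ := hx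
  exact ⟨y, Subtype.ext hy⟩

instance (n : ℕ) : IsClosedImmersion (Spec.map (zeroHom k n)) :=
  IsClosedImmersion.spec_of_surjective _ (surjective_algebraMap_zero k n)

instance (n : ℕ) : LocallyOfFiniteType (projToSpecZero k n) := by
  have := finiteType_zero k n
  rw [projToSpecZero]
  exact inferInstanceAs (LocallyOfFiniteType (Proj.toSpecZero (grading k n)))

instance (n : ℕ) : QuasiCompact (projToSpecZero k n) := by
  have := finiteType_zero k n
  rw [projToSpecZero]
  exact inferInstanceAs (QuasiCompact (Proj.toSpecZero (grading k n)))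

instance locallyOfFiniteType_projectiveSpaceHom (n : ℕ) :
    LocallyOfFiniteType (projectiveSpaceHom k n) := by
  rw [projectiveSpaceHom]
  infer_instance

instance quasiCompact_projectiveSpaceHom (n : ℕ) : QuasiCompact (projectiveSpaceHom k n) := by
  rw [projectiveSpaceHom]
  infer_instance

/-- The projective space `ℙⁿ` over `k`. -/
noncomputable def projectiveSpace (n : ℕ) : FTScheme k where
  toOver := Over.mk (projectiveSpaceHom k n)
  locallyOfFiniteType := locallyOfFiniteType_projectiveSpaceHom k n
  quasiCompact := quasiCompact_projectiveSpaceHom k n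

/-- The point `Spec k`. -/
noncomputable def point : FTScheme k where
  toOver := Over.mk (𝟙 (Spec (CommRingCat.of k)))
  locallyOfFiniteType := inferInstanceAs (LocallyOfFiniteType (𝟙 (Spec (CommRingCat.of k))))
  quasiCompact := inferInstanceAs (QuasiCompact (𝟙 (Spec (CommRingCat.of k))))

/-- The structure morphism of `ℙⁿ`. -/
noncomputable def toPoint (n : ℕ) : (projectiveSpace k n).toOver ⟶ (point k).toOver :=
  Over.homMk (projectiveSpaceHom k n) (Category.comp_id _)

lemma isProjective_toPoint (n : ℕ) : IsProjective (toPoint k n) := by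
  refine ⟨n, pullback.lift (projectiveSpaceHom k n) (𝟙 _) ?_, ?_, ?_⟩
  · exact (Category.comp_id _).trans (Category.id_comp _).symm
  · have h1 : pullback.lift (projectiveSpaceHom k n) (𝟙 _)
        ((Category.comp_id _).trans (Category.id_comp _).symm) ≫
        pullback.snd (𝟙 (Spec (CommRingCat.of k))) (projectiveSpaceHom k n) = 𝟙 _ :=
      pullback.lift_snd _ _ _
    have h2 : IsIso (pullback.snd (𝟙 (Spec (CommRingCat.of k))) (projectiveSpaceHom k n)) :=
      inferInstance
    have h3 : IsIso (pullback.lift (projectiveSpaceHom k n) (𝟙 _)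
        ((Category.comp_id _).trans (Category.id_comp _).symm) :
        _ ⟶ pullback (𝟙 (Spec (CommRingCat.of k))) (projectiveSpaceHom k n)) :=
      IsIso.of_isIso_fac_right h1
    exact inferInstanceAs (IsClosedImmersion (pullback.lift (projectiveSpaceHom k n) (𝟙 _)
        ((Category.comp_id _).trans (Category.id_comp _).symm) :
        _ ⟶ pullback (𝟙 (Spec (CommRingCat.of k))) (projectiveSpaceHom k n)))
  · exact pullback.lift_fst _ _ _

end Pool.Agent.TH177.MP
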