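import Pool.Agent.TH177.MP.Defs
import Pool.Agent.TH177.MP.Geo

/-!
# Complexes and perverse sheaves on Deligne's topos `X ×_s η`, and monodromy-purity
-/

open CategoryTheory Limits AlgebraicGeometry

universe u v w v' w'

namespace Pool.Agent.TH177.MP

section Abstract

variable {C : Type v} [Category.{w} C] [Abelian C] {C' : Type v'} [Category.{w'} C'] [Abelian C']

/-- The sequence `A ⟶ B ⟶ D` is exact. -/
def IsExactAt {A B D : C} (f : A ⟶ B) (g : B ⟶ D) : Prop :=
  ∃ h : f ≫ g = 0, (ShortComplex.mk f g h).Exact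

/-- The sequence `0 ⟶ A ⟶ B ⟶ D ⟶ 0` is exact. -/
def IsShortExact {A B D : C} (f : A ⟶ B) (g : B ⟶ D) : Prop :=
  ∃ h : f ≫ g = 0, (ShortComplex.mk f g h).ShortExact

/-- For every short exact sequence `0 ⟶ A ⟶ B ⟶ D ⟶ 0` there is a connecting morphism from `R D` to
`R' A` such that `R A ⟶ R B ⟶ R D ⟶ R' A ⟶ R' B` is exact. -/
def HasConnecting (R R' : C ⥤ C') : Prop :=
  ∀ (A B D : C) (f : A ⟶ B) (g : B ⟶ D), IsShortExact f g → ∃ δ : R.obj D ⟶ R'.obj A,
    IsExactAt (R.map f) (R.map g) ∧ IsExactAt (R.map g) δ ∧ IsExactAt δ (R'.map f)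

/-- The functor `R` commutes with the Tate twist and with the operators `N`. -/
def CommutesWithMonodromy (t : Weights C) (N : 𝟭 C ⟶ t.T.functor) (t' : Weights C')
    (N' : 𝟭 C' ⟶ t'.T.functor) (R : C ⥤ C') : Prop :=
  ∃ e : t.T.functor ⋙ R ≅ R ⋙ t'.T.functor,
    ∀ F : C, R.map (N.app F) ≫ e.hom.app F = N'.app (R.obj F)

end Abstract

/-- The objects and operations which enter in the definition of monodromy-pure complexes, for the schemes
`X` of finite type over a finite field `k`. -/
structure Theory (k : Type u) [Field k] where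
  /-- The category of mixed complexes in `D^b_c (X ×_s η; ℚ_ℓ)`. -/
  D : FTScheme k → Type v
  /-- The category of mixed perverse sheaves on `X ×_s η`. -/
  Perv : FTScheme k → Type v
  [categoryD : ∀ X, Category.{w} (D X)]
  [categoryPerv : ∀ X, Category.{w} (Perv X)]
  [abelian : ∀ X, Abelian (Perv X)]
  /-- A perverse sheaf as a complex. -/
  incl : ∀ X, Perv X ⥤ D X
  /-- The perverse cohomology sheaves of a complex. -/
  H : ∀ X, ℤ → (D X ⥤ Perv X)
  /-- The Tate twist `F ↦ F (-1)` and purity, for perverse sheaves. -/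
  weights : ∀ X, Weights (Perv X)
  /-- The logarithm of the unipotent part of the action of inertia, `N : F ⟶ F (-1)`. -/
  N : ∀ X, 𝟭 (Perv X) ⟶ (weights X).T.functor
  /-- The direct image `R (f ×_s η)_*`. -/
  push : ∀ {X Y : FTScheme k}, (X.toOver ⟶ Y.toOver) → (D X ⥤ D Y)

attribute [instance] Theory.categoryD Theory.categoryPerv Theory.abelian

namespace Theory

variable {k : Type u} [Field k] (P : Theory.{u, v, w} k)

/-- The perverse cohomology sheaf of degree `i` of the direct image of a perverse sheaf. -/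
def direct {X Y : FTScheme k} (f : X.toOver ⟶ Y.toOver) (i : ℤ) : P.Perv X ⥤ P.Perv Y :=
  P.incl X ⋙ P.push f ⋙ P.H Y i

/-- A perverse sheaf is monodromy-pure of weight `w`: the graded piece of index `a` of the monodromy
filtration is pure of weight `w + a`. -/
def PerverseMonodromyPure {X : FTScheme k} (w : ℤ) (F : P.Perv X) : Prop :=
  (P.weights X).MonodromyPure w ((P.N X).app F)

/-- A complex is monodromy-pure of weight `w`: its perverse cohomology sheaf of degree `i` is
monodromy-pure of weight `w + i`, for all `i`. -/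
def MonodromyPure {X : FTScheme k} (w : ℤ) (F : P.D X) : Prop :=
  ∀ i : ℤ, P.PerverseMonodromyPure (w + i) ((P.H X i).obj F)

/-- The conjecture: direct images by projective morphisms preserve monodromy-pure complexes. -/
def ProjectivePushforward : Prop :=
  ∀ (X Y : FTScheme k) (f : X.toOver ⟶ Y.toOver), IsProjective f →
    ∀ (w : ℤ) (F : P.D X), P.MonodromyPure w F → P.MonodromyPure w ((P.push f).obj F)

/-- The perverse cohomology of a perverse sheaf. -/
def HeartCohomology (X : FTScheme k) : Prop :=
  Nonempty (P.incl X ⋙ P.H X 0 ≅ 𝟭 (P.Perv X)) ∧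
    ∀ (i : ℤ) (F : P.Perv X), i ≠ 0 → IsZero ((P.H X i).obj ((P.incl X).obj F))

/-- The theorem of Deligne and Gabber: direct images by projective morphisms preserve purity. -/
def PreservesPurity {X Y : FTScheme k} (f : X.toOver ⟶ Y.toOver) : Prop :=
  ∀ (i w : ℤ) (F : P.Perv X), (P.weights X).Pure w F →
    (P.weights Y).Pure (w + i) ((P.direct f i).obj F)

/-- Standard properties. -/
structure IsTheory : Prop where
  /-- The properties of purity for perverse sheaves. -/
  weight : ∀ X, (P.weights X).IsWeightTheory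
  /-- A perverse sheaf is its own perverse cohomology in degree zero, and the other perverse
  cohomology sheaves vanish. -/
  heart : ∀ X, P.HeartCohomology X
  /-- Direct images are additive. -/
  additive : ∀ {X Y : FTScheme k} (f : X.toOver ⟶ Y.toOver) (i : ℤ), (P.direct f i).Additive
  /-- Direct images commute with the Tate twist, and with the operators `N`. -/
  monodromy : ∀ {X Y : FTScheme k} (f : X.toOver ⟶ Y.toOver) (i : ℤ),
    CommutesWithMonodromy (P.weights X) (P.N X) (P.weights Y) (P.N Y) (P.direct f i)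
  /-- The long exact sequence of a short exact sequence of perverse sheaves. -/
  long_exact : ∀ {X Y : FTScheme k} (f : X.toOver ⟶ Y.toOver) (i : ℤ),
    HasConnecting (P.direct f i) (P.direct f (i + 1))
  /-- The theorem of Deligne and Gabber. -/
  pure : ∀ {X Y : FTScheme k} (f : X.toOver ⟶ Y.toOver), IsProjective f → P.PreservesPurity f

end Theory

section LineSheaves

variable {C : Type v} [Category.{w} C] [Abelian C] {C' : Type v'} [Category.{w'} C'] [Abelian C']

/-- Objects `S`, `J`, `Q`, `Z`, `V`, exact sequences `0 ⟶ S ⟶ J ⟶ Q ⟶ 0` and `0 ⟶ Z ⟶ V ⟶ Q ⟶ 0`, and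
an isomorphism of `Q` and `Z (-1)`, such that the operator `N` is zero on `J` and equal to
`V ⟶ Q ≅ Z (-1) ⟶ V (-1)` on `V`. -/
structure Sheaves (t : Weights C) (N : 𝟭 C ⟶ t.T.functor) where
  S : C
  J : C
  Q : C
  Z : C
  V : C
  s : S ⟶ J
  p : J ⟶ Q
  z : Z ⟶ V
  q : V ⟶ Q
  θ : Q ≅ t.T.functor.obj Z
  exact_sp : IsShortExact s p
  exact_zq : IsShortExact z q
  N_J : N.app J = 0
  N_V : N.app V = q ≫ θ.hom ≫ t.T.functor.map z

end LineSheaves

namespace Theory

variable {k : Type u} [Field k] (P : Theory.{u, v, w} k)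

/-- The following perverse sheaves on the projective line: the skyscraper `S` of `ℚ_ℓ` at the origin,
the extension by zero `J` of `ℚ_ℓ[1]` from the complement of the origin, the constant sheaf
`Q = ℚ_ℓ[1]`, its twist `Z = ℚ_ℓ(1)[1]`, and `V = E[1]` for the Kummer extension `E` of `ℚ_ℓ` by
`ℚ_ℓ(1)` given by a uniformizer of `K`. Inertia acts trivially on `S`, `J`, `Q`, `Z`. -/
structure LineSheaves extends
    Sheaves (P.weights (projectiveSpace k 1)) (P.N (projectiveSpace k 1)) where
  /-- `S` is pure of weight `0`. -/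
  pure_S : (P.weights (projectiveSpace k 1)).Pure 0 S
  /-- `Q` is pure of weight `1`. -/
  pure_Q : (P.weights (projectiveSpace k 1)).Pure 1 Q
  /-- The group `H^i (ℙ¹, J)`, which is the cohomology with compact support of degree `i + 1` of the
  affine line, vanishes for negative `i`. -/
  cohomology_J : ∀ i : ℤ, i < 0 → IsZero ((P.direct (toPoint k 1) i).obj J)
  /-- The group `H^(-1) (ℙ¹, Q)`, which is `H^0 (ℙ¹, ℚ_ℓ)`, is not zero. -/
  cohomology_Q : ¬ IsZero ((P.direct (toPoint k 1) (-1)).obj Q)

end Theory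

end Pool.Agent.TH177.MP
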